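import Pool.Agent.helper358_gh.Tree

open Finset

namespace helper358_gh

section
variable {α ι : Type*} [Fintype ι] (ch : ι → α → α)

open Classical in
/-- The finite form of the self-improvement inequality. -/
lemma tree_main [Nonempty ι] {A B : α → ℝ} {p L ε : ℝ} (hp : 1 < p) (h0 : ∀ R, 0 < A R)
    (hA : ∀ R, A R = (∑ s, A (ch s R)) / Fintype.card ι)
    (hB : ∀ R, B R = (∑ s, B (ch s R)) / Fintype.card ι)
    (hAB : ∀ R, A R ^ p ≤ B R) (hBA : ∀ R, B R ≤ L * A R ^ p) (hL : 0 ≤ L)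
    (hε : 0 < ε) (hε1 : ε ≤ 1)
    (hc : ε * L * (2 * (Fintype.card ι : ℝ) ^ (p - 1) * ((2 : ℝ) ^ p / (1 - (2 : ℝ) ^ (1 - p)))) ≤ 1 / 2)
    (n : ℕ) (R : α) :
    En ch (fun R => A R ^ (p + ε)) n R ≤ 2 * L * A R ^ (p + ε) := by
  have hN : (0 : ℝ) < Fintype.card ι := by exact_mod_cast Fintype.card_pos
  have hN1 : (1 : ℝ) ≤ Fintype.card ι := by exact_mod_cast (Fintype.card_pos (α := ι))
  set N : ℝ := (Fintype.card ι : ℝ) with hNdef
  set a0 : ℝ := A R with ha0
  have ha0' : 0 < a0 := h0 R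
  set M : ℕ := n * Fintype.card ι with hM
  set s : ℝ := p - 1 + ε with hs
  have hs0 : 0 < s := by rw [hs]; linarith
  have hq : (2 : ℝ) ^ (1 - p) < 1 := Real.rpow_lt_one_of_one_lt_of_neg (by norm_num) (by linarith)
  have hqs : (2 : ℝ) ^ (-s) ≤ (2 : ℝ) ^ (1 - p) :=
    Real.rpow_le_rpow_of_exponent_le (by norm_num) (by rw [hs]; linarith)
  -- step 1 : layer cake
  have step1 : En ch (fun R => A R ^ (p + ε)) n R ≤
      En ch (fun R => a0 ^ ε * A R ^ p + ∑ k ∈ range M,
        (ε * (2 ^ k * a0) ^ ε) * (if 2 ^ k * a0 < A R then A R ^ p else 0)) n R := by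
    refine En_mono_of ch h0 hA (T := a0 * N ^ n) (fun R' hR' => ?_) n R le_rfl
    have hle : A R' ≤ 2 ^ M * a0 := by
      refine hR'.trans ?_
      rw [mul_comm]
      gcongr
      rw [hM, hNdef, mul_comm n, pow_mul]
      have : (Fintype.card ι : ℝ) ≤ 2 ^ (Fintype.card ι) := by
        exact_mod_cast (Nat.lt_two_pow_self).le
      gcongr
    have h1 := layer1 (h0 R') ha0' hε hε1 M hle
    have h2 : A R' ^ (p + ε) = A R' ^ ε * A R' ^ p := by
      rw [← Real.rpow_add (h0 R')]; ring_nf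
    rw [h2]
    have h3 : 0 ≤ A R' ^ p := Real.rpow_nonneg (h0 R').le _
    calc A R' ^ ε * A R' ^ p ≤ (a0 ^ ε + ∑ k ∈ range M, ε * (2 ^ k * a0) ^ ε *
          (if 2 ^ k * a0 < A R' then 1 else 0)) * A R' ^ p := by gcongr
      _ = _ := by
        rw [add_mul, Finset.sum_mul]
        congr 1
        refine Finset.sum_congr rfl fun k _ => ?_
        split_ifs <;> ring
  -- step 2 : linearity
  have step2 : En ch (fun R => a0 ^ ε * A R ^ p + ∑ k ∈ range M,
        (ε * (2 ^ k * a0) ^ ε) * (if 2 ^ k * a0 < A R then A R ^ p else 0)) n R =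
      a0 ^ ε * En ch (fun R => A R ^ p) n R + ∑ k ∈ range M, (ε * (2 ^ k * a0) ^ ε) *
        En ch (fun R => if 2 ^ k * a0 < A R then A R ^ p else 0) n R := by
    rw [En_add ch (fun R => a0 ^ ε * A R ^ p), En_const_mul, En_sum]
    congr 1
    refine Finset.sum_congr rfl fun k _ => ?_
    rw [En_const_mul]
  -- step 3 : first term
  have step3 : En ch (fun R => A R ^ p) n R ≤ L * a0 ^ p := by
    calc En ch (fun R => A R ^ p) n R ≤ En ch B n R := En_mono ch hAB n R
      _ = B R := En_martingale ch hB n R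
      _ ≤ _ := hBA R
  -- step 4 : the CZ step
  have step4 : ∑ k ∈ range M, (ε * (2 ^ k * a0) ^ ε) *
        En ch (fun R => if 2 ^ k * a0 < A R then A R ^ p else 0) n R ≤
      (ε * L * (2 * N ^ (p - 1))) * En ch (fun R => A R * ∑ k ∈ range M, (2 ^ k * a0) ^ s *
        (if 2 ^ k * a0 < 2 * A R then 1 else 0)) n R := by
    have e : (fun R => A R * ∑ k ∈ range M, (2 ^ k * a0) ^ s *
        (if 2 ^ k * a0 < 2 * A R then (1:ℝ) else 0)) = fun R => ∑ k ∈ range M,
          (2 ^ k * a0) ^ s * (if 2 ^ k * a0 < 2 * A R then A R else 0) := by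
      funext R'
      rw [Finset.mul_sum]
      refine Finset.sum_congr rfl fun k _ => ?_
      split_ifs <;> ring
    rw [e, En_sum, Finset.mul_sum]
    refine Finset.sum_le_sum fun k _ => ?_
    rw [En_const_mul]
    have ht : (0 : ℝ) < 2 ^ k * a0 := by positivity
    have hRt : A R ≤ N * (2 ^ k * a0) := by
      have h2k : (1 : ℝ) ≤ 2 ^ k := one_le_pow₀ (by norm_num)
      calc A R = 1 * (1 * a0) := by simp [ha0]
        _ ≤ N * (2 ^ k * a0) := by gcongr
    have hcz := cz ch hp h0 hA hB hAB hBA hL ht n R hRt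
    calc (ε * (2 ^ k * a0) ^ ε) * En ch (fun R => if 2 ^ k * a0 < A R then A R ^ p else 0) n R
        ≤ (ε * (2 ^ k * a0) ^ ε) * (2 * L * (N * (2 ^ k * a0)) ^ (p - 1) *
            En ch (fun R => if 2 ^ k * a0 < 2 * A R then A R else 0) n R) := by gcongr
      _ = _ := by
        rw [Real.mul_rpow hN.le ht.le, hs, Real.rpow_add ht]
        ring
  -- step 5 : geometric series
  have step5 : En ch (fun R => A R * ∑ k ∈ range M, (2 ^ k * a0) ^ s *
        (if 2 ^ k * a0 < 2 * A R then 1 else 0)) n R ≤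
      ((2 : ℝ) ^ p / (1 - (2 : ℝ) ^ (1 - p))) * En ch (fun R => A R ^ (p + ε)) n R := by
    rw [← En_const_mul]
    refine En_mono ch (fun R' => ?_) n R
    have h1 := layer2 (b := 2 * A R') (by have := h0 R'; positivity) ha0' hs0 M
    have h2 : 0 < 1 - (2 : ℝ) ^ (1 - p) := by linarith
    have hA0 := h0 R'
    calc A R' * ∑ k ∈ range M, (2 ^ k * a0) ^ s * (if 2 ^ k * a0 < 2 * A R' then 1 else 0)
        ≤ A R' * ((2 * A R') ^ s / (1 - (2 : ℝ) ^ (-s))) := by gcongr
      _ ≤ A R' * ((2 * A R') ^ s / (1 - (2 : ℝ) ^ (1 - p))) := by gcongr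
      _ = (2 : ℝ) ^ s / (1 - (2 : ℝ) ^ (1 - p)) * (A R' ^ s * A R') := by
          rw [Real.mul_rpow (by norm_num) hA0.le]; ring
      _ ≤ (2 : ℝ) ^ p / (1 - (2 : ℝ) ^ (1 - p)) * (A R' ^ s * A R') := by
          have : (2 : ℝ) ^ s ≤ (2 : ℝ) ^ p :=
            Real.rpow_le_rpow_of_exponent_le (by norm_num) (by rw [hs]; linarith)
          gcongr
      _ = _ := by
          rw [← Real.rpow_add_one hA0.ne']
          congr 2
          rw [hs]; ring
  have hE0 : 0 ≤ En ch (fun R => A R ^ (p + ε)) n R :=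
    En_nonneg ch (fun R' => Real.rpow_nonneg (h0 R').le _) n R
  have hfin : En ch (fun R => A R ^ (p + ε)) n R ≤
      L * a0 ^ (p + ε) + (1 / 2) * En ch (fun R => A R ^ (p + ε)) n R := by
    have e1 : a0 ^ ε * (L * a0 ^ p) = L * a0 ^ (p + ε) := by
      rw [Real.rpow_add ha0']; ring
    calc En ch (fun R => A R ^ (p + ε)) n R
        ≤ a0 ^ ε * En ch (fun R => A R ^ p) n R + ∑ k ∈ range M, (ε * (2 ^ k * a0) ^ ε) *
        En ch (fun R => if 2 ^ k * a0 < A R then A R ^ p else 0) n R := by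
          rw [← step2]; exact step1
      _ ≤ a0 ^ ε * (L * a0 ^ p) + (ε * L * (2 * N ^ (p - 1))) *
          (((2 : ℝ) ^ p / (1 - (2 : ℝ) ^ (1 - p))) * En ch (fun R => A R ^ (p + ε)) n R) := by
          refine add_le_add ?_ (step4.trans ?_)
          · gcongr
          · gcongr
      _ = L * a0 ^ (p + ε) + (ε * L * (2 * N ^ (p - 1) * ((2 : ℝ) ^ p / (1 - (2 : ℝ) ^ (1 - p))))) *
            En ch (fun R => A R ^ (p + ε)) n R := by rw [e1]; ring
      _ ≤ _ := by gcongr
  linarith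

end

end helper358_gh
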