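import Pool.Agent.helper358_gh.Defs
import Pool.Agent.helper358_gh.Main

open MeasureTheory Set Filter Topology
open scoped ENNReal

namespace helper358_gh

/-- A cube with positive side. -/
structure Cub (d : ℕ) where
  a : Fin d → ℝ
  ℓ : ℝ
  pos : 0 < ℓ

variable {d : ℕ}

/-- The children of a cube. -/
noncomputable def ch (s : Fin d → Bool) (R : Cub d) : Cub d :=
  ⟨fun i => R.a i + (if s i then R.ℓ / 2 else 0), R.ℓ / 2, half_pos R.pos⟩

/-- The half-open cube. -/
def hc (R : Cub d) : Set (Fin d → ℝ) := {x | ∀ i, R.a i ≤ x i ∧ x i < R.a i + R.ℓ}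

lemma cube_eq_Icc (a : Fin d → ℝ) (ℓ : ℝ) : cube a ℓ = Icc a (fun i => a i + ℓ) := by
  ext x
  simp only [cube, Set.mem_ofPred_eq, mem_Icc, Pi.le_def, forall_and]

lemma hc_eq (R : Cub d) : hc R = univ.pi (fun i => Ico (R.a i) (R.a i + R.ℓ)) := by
  ext x
  simp [hc]

lemma hc_ae_eq (R : Cub d) : hc R =ᵐ[volume] cube R.a R.ℓ := by
  rw [hc_eq, cube_eq_Icc]
  exact Measure.univ_pi_Ico_ae_eq_Icc

lemma measurableSet_hc (R : Cub d) : MeasurableSet (hc R) := by
  rw [hc_eq]
  exact MeasurableSet.univ_pi fun i => measurableSet_Ico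

lemma volume_cube (R : Cub d) : volume (cube R.a R.ℓ) = ENNReal.ofReal (R.ℓ ^ d) := by
  rw [cube_eq_Icc, Real.volume_Icc_pi]
  simp [ENNReal.ofReal_pow R.pos.le]

lemma volume_hc (R : Cub d) : volume (hc R) = ENNReal.ofReal (R.ℓ ^ d) := by
  rw [measure_congr (hc_ae_eq R), volume_cube]

lemma setLIntegral_cube (f : (Fin d → ℝ) → ℝ≥0∞) (R : Cub d) :
    ∫⁻ x in cube R.a R.ℓ, f x = ∫⁻ x in hc R, f x :=
  (setLIntegral_congr (hc_ae_eq R)).symm

lemma avg_eq (f : (Fin d → ℝ) → ℝ≥0∞) (R : Cub d) :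
    avg f R.a R.ℓ = (∫⁻ x in hc R, f x) / ENNReal.ofReal (R.ℓ ^ d) := by
  rw [avg, setLIntegral_cube, volume_cube]

/-- The label of the child containing `x`. -/
noncomputable def side (R : Cub d) (x : Fin d → ℝ) : Fin d → Bool :=
  fun i => decide (R.a i + R.ℓ / 2 ≤ x i)

lemma mem_ch_iff (R : Cub d) (s : Fin d → Bool) (x : Fin d → ℝ) :
    x ∈ hc (ch s R) ↔ x ∈ hc R ∧ side R x = s := by
  have hp := R.pos
  simp only [hc, Set.mem_ofPred_eq, ch, side, funext_iff, ← forall_and]
  refine forall_congr' fun i => ?_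
  cases hs : s i
  · simp only [Bool.false_eq_true, if_false, add_zero, decide_eq_false_iff_not, not_le]
    constructor
    · rintro ⟨h1, h2⟩; exact ⟨⟨h1, by linarith⟩, by linarith⟩
    · rintro ⟨⟨h1, h2⟩, h3⟩; exact ⟨h1, by linarith⟩
  · simp only [if_true, decide_eq_true_eq]
    constructor
    · rintro ⟨h1, h2⟩; exact ⟨⟨by linarith, by linarith⟩, by linarith⟩
    · rintro ⟨⟨h1, h2⟩, h3⟩; exact ⟨by linarith, by linarith⟩

lemma hc_eq_iUnion (R : Cub d) : hc R = ⋃ s, hc (ch s R) := by
  ext x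
  simp only [mem_iUnion, mem_ch_iff, exists_and_left, exists_eq', and_true]

lemma disjoint_ch (R : Cub d) : Pairwise (Function.onFun Disjoint fun s => hc (ch s R)) := by
  intro s t hst
  rw [Function.onFun, Set.disjoint_left]
  intro x hx hx'
  rw [mem_ch_iff] at hx hx'
  exact hst (hx.2.symm.trans hx'.2)

lemma lintegral_ch (f : (Fin d → ℝ) → ℝ≥0∞) (R : Cub d) :
    ∫⁻ x in hc R, f x = ∑ s, ∫⁻ x in hc (ch s R), f x := by
  conv_lhs => rw [hc_eq_iUnion R]
  rw [lintegral_iUnion (fun s => measurableSet_hc _) (disjoint_ch R), tsum_fintype]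

lemma card_eq : (Fintype.card (Fin d → Bool) : ℝ) = 2 ^ d := by
  simp

/-- The real average over a cube. -/
noncomputable def ravg (f : (Fin d → ℝ) → ℝ≥0∞) (R : Cub d) : ℝ := (avg f R.a R.ℓ).toReal

lemma ravg_eq (f : (Fin d → ℝ) → ℝ≥0∞) (R : Cub d) :
    ravg f R = (∫⁻ x in hc R, f x).toReal / R.ℓ ^ d := by
  have := R.pos
  rw [ravg, avg_eq, ENNReal.toReal_div, ENNReal.toReal_ofReal (by positivity)]

lemma ravg_martingale (f : (Fin d → ℝ) → ℝ≥0∞) (hf : ∀ R : Cub d, ∫⁻ x in hc R, f x ≠ ∞)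
    (R : Cub d) : ravg f R = (∑ s, ravg f (ch s R)) / Fintype.card (Fin d → Bool) := by
  have hp := R.pos
  rw [card_eq]
  simp only [ravg_eq]
  rw [lintegral_ch f R, ENNReal.toReal_sum (fun s _ => hf _)]
  have e : ∀ s : Fin d → Bool, (ch s R).ℓ = R.ℓ / 2 := fun s => rfl
  simp only [e]
  rw [← Finset.sum_div, div_pow]
  field_simp

/-! ### The cell of generation `n` containing a point -/

/-- the generation `n` cell containing `x` -/
noncomputable def cell : ℕ → Cub d → (Fin d → ℝ) → Cub d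
  | 0, R, _ => R
  | n + 1, R, x => cell n (ch (side R x) R) x

lemma mem_cell (n : ℕ) (R : Cub d) (x : Fin d → ℝ) (hx : x ∈ hc R) : x ∈ hc (cell n R x) := by
  induction n generalizing R with
  | zero => exact hx
  | succ n ih => exact ih _ ((mem_ch_iff R _ x).2 ⟨hx, rfl⟩)

lemma cell_side (n : ℕ) (R : Cub d) (x : Fin d → ℝ) : (cell n R x).ℓ = R.ℓ / 2 ^ n := by
  induction n generalizing R with
  | zero => simp [cell]
  | succ n ih =>
    rw [cell, ih]
    simp only [ch]
    rw [pow_succ]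
    field_simp

lemma measurable_side (R : Cub d) : Measurable (side R) := by
  refine measurable_pi_lambda _ fun i => ?_
  refine measurable_to_bool ?_
  have : (fun x : Fin d → ℝ => side R x i) ⁻¹' {true} = {x | R.a i + R.ℓ / 2 ≤ x i} := by
    ext x; simp [side]
  rw [this]
  exact measurableSet_le measurable_const (measurable_pi_apply i)

lemma measurable_cell (G : Cub d → ℝ≥0∞) (n : ℕ) (R : Cub d) :
    Measurable (fun x => G (cell n R x)) := by
  induction n generalizing R with
  | zero => simp only [cell]; exact measurable_const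
  | succ n ih =>
    have h1 : Measurable (fun q : (Fin d → Bool) × (Fin d → ℝ) => G (cell n (ch q.1 R) q.2)) :=
      measurable_from_prod_countable_right fun s => ih (ch s R)
    exact h1.comp ((measurable_side R).prodMk measurable_id)

lemma lintegral_cell {F : Cub d → ℝ} (hF : ∀ R, 0 ≤ F R) (n : ℕ) (R : Cub d) :
    ∫⁻ x in hc R, ENNReal.ofReal (F (cell n R x)) = ENNReal.ofReal (R.ℓ ^ d * En ch F n R) := by
  induction n generalizing R with
  | zero =>
    simp only [cell, En]
    rw [setLIntegral_const, volume_hc, ENNReal.ofReal_mul (pow_nonneg R.pos.le _), mul_comm]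
  | succ n ih =>
    have hp := R.pos
    rw [lintegral_ch]
    have : ∀ s : Fin d → Bool, ∫⁻ x in hc (ch s R), ENNReal.ofReal (F (cell (n + 1) R x)) =
        ENNReal.ofReal ((ch s R).ℓ ^ d * En ch F n (ch s R)) := by
      intro s
      rw [← ih (ch s R)]
      refine setLIntegral_congr_fun (measurableSet_hc _) fun x hx => ?_
      simp only [cell]
      rw [((mem_ch_iff R s x).1 hx).2]
    rw [Finset.sum_congr rfl fun s _ => this s]
    rw [← ENNReal.ofReal_sum_of_nonneg]
    · congr 1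
      simp only [En, card_eq]
      rw [← mul_div_assoc, Finset.mul_sum, Finset.sum_div]
      refine Finset.sum_congr rfl fun s _ => ?_
      simp only [ch]
      rw [div_pow]
      field_simp
    · intro s _
      exact mul_nonneg (pow_nonneg (ch s R).pos.le _) (En_nonneg ch hF n _)

end helper358_gh
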