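import Mathlib

/-!
Definitions for the self-improvement of reverse Hölder weights on `ℝ^d = (Fin d → ℝ)`.
-/

open MeasureTheory
open scoped ENNReal

namespace helper358_gh

/-- The closed axis-parallel cube in `ℝ^d` with lower corner `a` and side length `ℓ`. -/
def cube {d : ℕ} (a : Fin d → ℝ) (ℓ : ℝ) : Set (Fin d → ℝ) :=
  {x | ∀ i, a i ≤ x i ∧ x i ≤ a i + ℓ}

/-- The average `|Q|⁻¹ ∫_Q f dx` (with values in `[0,∞]`) of a nonnegative function over the cube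
`Q = cube a ℓ`, with respect to Lebesgue measure. -/
noncomputable def avg {d : ℕ} (f : (Fin d → ℝ) → ℝ≥0∞) (a : Fin d → ℝ) (ℓ : ℝ) : ℝ≥0∞ :=
  (∫⁻ x in cube a ℓ, f x) / volume (cube a ℓ)

/-- A weight on `ℝ^d`: a locally integrable function that is positive almost everywhere. -/
structure IsWeight {d : ℕ} (w : (Fin d → ℝ) → ℝ) : Prop where
  locallyIntegrable : LocallyIntegrable w volume
  pos : ∀ᵐ x, 0 < w x

/-- The reverse Hölder constant `[w]_{RH_p} = sup_Q ⟨w^p⟩_Q^{1/p} ⟨w⟩_Q^{-1}`, the supremum over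
all cubes `Q`, with values in `[0,∞]`. -/
noncomputable def rhConst {d : ℕ} (p : ℝ) (w : (Fin d → ℝ) → ℝ) : ℝ≥0∞ :=
  ⨆ (a : Fin d → ℝ) (ℓ : ℝ) (_ : 0 < ℓ),
    avg (fun x => ENNReal.ofReal (w x) ^ p) a ℓ ^ (1 / p) /
      avg (fun x => ENNReal.ofReal (w x)) a ℓ

end helper358_gh
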