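import Pool.Agent.helper358_gh.Weight

open MeasureTheory Set Filter Topology
open scoped ENNReal

namespace helper358_gh

variable {d : ℕ}

/-- The cube as a closed ball for the sup metric. -/
lemma cube_eq_ball (R : Cub d) :
    cube R.a R.ℓ = Metric.closedBall (fun i => R.a i + R.ℓ / 2) (R.ℓ / 2) := by
  have hp := R.pos
  ext x
  rw [closedBall_pi _ (by linarith)]
  simp only [cube, Set.mem_ofPred_eq, Set.mem_pi, Set.mem_univ, true_imp_iff, Real.closedBall_eq_Icc,
    Set.mem_Icc]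
  refine forall_congr' fun i => ?_
  constructor
  · rintro ⟨h1, h2⟩; constructor <;> linarith
  · rintro ⟨h1, h2⟩; constructor <;> linarith

section
variable {w : (Fin d → ℝ) → ℝ} (hw : IsWeight w)
include hw

lemma ravg_eq_average (R : Cub d) :
    ravg (uu w) R =
      ⨍ y in Metric.closedBall (fun i => R.a i + R.ℓ / 2) (R.ℓ / 2), w y := by
  have hp := R.pos
  rw [← cube_eq_ball, setAverage_eq, ravg, avg, ENNReal.toReal_div]
  rw [Measure.real, smul_eq_mul, div_eq_inv_mul]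
  congr 1
  rw [integral_eq_lintegral_of_nonneg_ae]
  · filter_upwards [ae_restrict_of_ae hw.pos] with x hx using hx.le
  · exact (integrableOn_cube hw R).aestronglyMeasurable

lemma ae_tendsto_cell (R : Cub d) :
    ∀ᵐ x ∂(volume.restrict (hc R)),
      Tendsto (fun n => ravg (uu w) (cell n R x)) atTop (𝓝 (w x)) := by
  have h1 := IsUnifLocDoublingMeasure.ae_tendsto_average (μ := (volume : Measure (Fin d → ℝ)))
    hw.locallyIntegrable 1
  filter_upwards [ae_restrict_of_ae h1, ae_restrict_mem (measurableSet_hc R)] with x hx hxR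
  have hp := R.pos
  simp only [ravg_eq_average hw]
  refine hx (fun n => fun i => (cell n R x).a i + (cell n R x).ℓ / 2)
    (fun n => (cell n R x).ℓ / 2) ?_ ?_
  · rw [tendsto_nhdsWithin_iff]
    constructor
    · simp only [cell_side]
      have h2 : Tendsto (fun n : ℕ => R.ℓ / 2 * (1 / 2 : ℝ) ^ n) atTop (𝓝 (R.ℓ / 2 * 0)) :=
        (tendsto_pow_atTop_nhds_zero_of_lt_one (by norm_num) (by norm_num)).const_mul _
      rw [mul_zero] at h2
      refine h2.congr fun n => ?_
      rw [one_div, inv_pow]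
      field_simp
    · exact Eventually.of_forall fun n => half_pos (cell n R x).pos
  · refine Eventually.of_forall fun n => ?_
    simp only [one_mul]
    rw [← cube_eq_ball]
    intro i
    have := mem_cell n R x hxR i
    exact ⟨this.1, this.2.le⟩

/-- **Main estimate**, for the cubes of the auxiliary structure. -/
lemma main_estimate {p ε : ℝ} (hp : 1 < p) (hK : rhConst p w < ∞) (hε : 0 < ε)
    (hε2 : ε * (rhConst p w).toReal ^ p *
      (2 * ((2 : ℝ) ^ d) ^ (p - 1) * ((2 : ℝ) ^ p / (1 - (2 : ℝ) ^ (1 - p)))) ≤ 1 / 2)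
    (hε1 : ε ≤ 1) (R : Cub d) :
    avg (vv (p + ε) w) R.a R.ℓ ≤ 2 * rhConst p w ^ p * avg (uu w) R.a R.ℓ ^ (p + ε) := by
  have hp0 : 0 < p := by linarith
  have hpos := R.pos
  set K := (rhConst p w).toReal with hKdef
  have hKof : ENNReal.ofReal K = rhConst p w := ENNReal.ofReal_toReal hK.ne
  have hK0 : 0 ≤ K := ENNReal.toReal_nonneg
  set L : ℝ := K ^ p with hL
  have hL0 : 0 ≤ L := Real.rpow_nonneg hK0 _
  -- the tree inequality
  have tree : ∀ n, En ch (fun R : Cub d => ravg (uu w) R ^ (p + ε)) n R ≤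
      2 * L * ravg (uu w) R ^ (p + ε) := by
    intro n
    refine tree_main (A := ravg (uu w)) (B := ravg (vv p w)) ch hp (ravg_uu_pos hw)
      (ravg_martingale _ (uu_ne_top hw)) (ravg_martingale _ (vv_ne_top hw hp hK)) ?_ ?_ hL0 hε hε1
      ?_ n R
    · intro R'
      have h := ENNReal.toReal_mono (avg_vv_ne_top hw hp hK R') (jensen hw hp R')
      rwa [← ENNReal.toReal_rpow] at h
    · intro R'
      have h := ENNReal.toReal_mono (ENNReal.mul_ne_top (ENNReal.rpow_ne_top_of_nonneg hp0.le hK.ne)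
        (ENNReal.rpow_ne_top_of_nonneg hp0.le (avg_uu_ne_top hw R'))) (avg_le hw hp R')
      rwa [ENNReal.toReal_mul, ← ENNReal.toReal_rpow, ← ENNReal.toReal_rpow] at h
    · rw [card_eq]; exact hε2
  -- Fatou
  have hFnn : ∀ R' : Cub d, 0 ≤ ravg (uu w) R' ^ (p + ε) := fun R' =>
    Real.rpow_nonneg (ravg_uu_pos hw R').le _
  have hpe : 0 ≤ p + ε := by linarith
  have fatou : ∫⁻ x in hc R, vv (p + ε) w x ≤
      ENNReal.ofReal (R.ℓ ^ d * (2 * L * ravg (uu w) R ^ (p + ε))) := by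
    calc ∫⁻ x in hc R, vv (p + ε) w x
        = ∫⁻ x in hc R, liminf (fun n => ENNReal.ofReal (ravg (uu w) (cell n R x) ^ (p + ε)))
            atTop := by
          refine lintegral_congr_ae ?_
          filter_upwards [ae_tendsto_cell hw R, ae_restrict_of_ae hw.pos] with x hx hxp
          have h1 : Tendsto (fun n => ENNReal.ofReal (ravg (uu w) (cell n R x) ^ (p + ε))) atTop
              (𝓝 (ENNReal.ofReal (w x ^ (p + ε)))) :=
            (ENNReal.continuous_ofReal.tendsto _).comp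
              (((Real.continuousAt_rpow_const _ _ (Or.inr hpe)).tendsto).comp hx)
          rw [h1.liminf_eq]
          exact ENNReal.ofReal_rpow_of_nonneg hxp.le hpe
      _ ≤ liminf (fun n => ∫⁻ x in hc R, ENNReal.ofReal (ravg (uu w) (cell n R x) ^ (p + ε)))
            atTop := by
          refine lintegral_liminf_le fun n => ?_
          exact measurable_cell (fun R' => ENNReal.ofReal (ravg (uu w) R' ^ (p + ε))) n R
      _ ≤ ENNReal.ofReal (R.ℓ ^ d * (2 * L * ravg (uu w) R ^ (p + ε))) := by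
          refine liminf_le_of_le (by isBoundedDefault) fun b hb => ?_
          obtain ⟨n, hn⟩ := hb.exists
          refine hn.trans ?_
          rw [lintegral_cell (F := fun R' => ravg (uu w) R' ^ (p + ε)) hFnn n R]
          refine ENNReal.ofReal_le_ofReal ?_
          have := tree n
          gcongr
  have hV0 : ENNReal.ofReal (R.ℓ ^ d) ≠ 0 := by
    simp only [ne_eq, ENNReal.ofReal_eq_zero, not_le]; positivity
  rw [avg_eq, ENNReal.div_le_iff hV0 ENNReal.ofReal_ne_top]
  refine fatou.trans (le_of_eq ?_)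
  have hA0 := (ravg_uu_pos hw R).le
  rw [ENNReal.ofReal_mul (by positivity), ENNReal.ofReal_mul (by positivity),
    ENNReal.ofReal_mul (by norm_num), ← ENNReal.ofReal_rpow_of_nonneg hA0 hpe, hL,
    ← ENNReal.ofReal_rpow_of_nonneg hK0 hp0.le, hKof, ravg, ENNReal.ofReal_toReal
    (avg_uu_ne_top hw R)]
  simp only [ENNReal.ofReal_ofNat]
  ring

end

/-- The explicit constant `c_{d,p} = (1 - 2^{1-p}) / 2^{p + 2 + d (p - 1)}`. -/
noncomputable def cdp (d : ℕ) (p : ℝ) : ℝ := (1 - (2 : ℝ) ^ (1 - p)) / (2 : ℝ) ^ (p + 2 + d * (p - 1))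

lemma cdp_pos (d : ℕ) {p : ℝ} (hp : 1 < p) : 0 < cdp d p := by
  have hq : (2 : ℝ) ^ (1 - p) < 1 := Real.rpow_lt_one_of_one_lt_of_neg (by norm_num) (by linarith)
  unfold cdp
  have : 0 < 1 - (2 : ℝ) ^ (1 - p) := by linarith
  positivity

theorem main_result (d : ℕ) (p : ℝ) (hp : 1 < p) (w : (Fin d → ℝ) → ℝ) (hw : IsWeight w)
    (hK : rhConst p w < ∞) (ε : ℝ) (hε : 0 < ε)
    (hεc : ε ≤ cdp d p * (rhConst p w).toReal ^ (-p)) (a : Fin d → ℝ) (ℓ : ℝ) (hℓ : 0 < ℓ) :
    avg (fun x => ENNReal.ofReal (w x) ^ (p + ε)) a ℓ ≤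
      2 * rhConst p w ^ p * avg (fun x => ENNReal.ofReal (w x)) a ℓ ^ (p + ε) := by
  have hp0 : 0 < p := by linarith
  set K := (rhConst p w).toReal with hKdef
  have hK1 : 1 ≤ K := by
    have h := ENNReal.toReal_mono hK.ne (one_le_rhConst hw hp)
    simpa using h
  have hK0 : 0 < K := by linarith
  have hq : (2 : ℝ) ^ (1 - p) < 1 := Real.rpow_lt_one_of_one_lt_of_neg (by norm_num) (by linarith)
  have hq0 : 0 < 1 - (2 : ℝ) ^ (1 - p) := by linarith
  have hKp : 0 < K ^ p := by positivity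
  have hεK : ε * K ^ p ≤ cdp d p := by
    calc ε * K ^ p ≤ (cdp d p * K ^ (-p)) * K ^ p := by gcongr
      _ = cdp d p := by
        rw [mul_assoc, ← Real.rpow_add hK0]; simp
  have hc1 : cdp d p ≤ 1 := by
    unfold cdp
    rw [div_le_one (by positivity)]
    have h1 : (1 : ℝ) ≤ (2 : ℝ) ^ (p + 2 + d * (p - 1)) := by
      refine Real.one_le_rpow (by norm_num) ?_
      have : 0 ≤ (d : ℝ) * (p - 1) := mul_nonneg (Nat.cast_nonneg _) (by linarith)
      linarith
    have h2 : 0 < (2 : ℝ) ^ (1 - p) := by positivity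
    linarith
  have hε1 : ε ≤ 1 := by
    have h1 : (1 : ℝ) ≤ K ^ p := Real.one_le_rpow hK1 hp0.le
    nlinarith
  refine main_estimate hw hp hK hε ?_ hε1 ⟨a, ℓ, hℓ⟩
  rw [← hKdef]
  have e : cdp d p * (2 * ((2 : ℝ) ^ d) ^ (p - 1) * ((2 : ℝ) ^ p / (1 - (2 : ℝ) ^ (1 - p)))) =
      1 / 2 := by
    unfold cdp
    have e1 : ((2 : ℝ) ^ d) ^ (p - 1) = (2 : ℝ) ^ (d * (p - 1)) := by
      rw [← Real.rpow_natCast, ← Real.rpow_mul (by norm_num)]
    rw [e1, Real.rpow_add (by norm_num), Real.rpow_add (by norm_num)]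
    have e2 : (2 : ℝ) ^ (2 : ℝ) = 4 := by norm_num
    rw [e2]
    field_simp
    norm_num
  calc ε * K ^ p * (2 * ((2 : ℝ) ^ d) ^ (p - 1) * ((2 : ℝ) ^ p / (1 - (2 : ℝ) ^ (1 - p))))
      ≤ cdp d p * (2 * ((2 : ℝ) ^ d) ^ (p - 1) * ((2 : ℝ) ^ p / (1 - (2 : ℝ) ^ (1 - p)))) := by
        gcongr
    _ = 1 / 2 := e

end helper358_gh
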