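import Mathlib

/-!
Finite (tree) part of the Gehring argument: expectation over the `n`-th generation of a
regular tree, the Calderon-Zygmund step, and the discrete layer-cake summation.
-/

open Finset

namespace helper358_gh

/-- Expectation of `F` over the `n`-th generation descendants of `R`, the children of `R` being
`ch s R`, `s : ι`. -/
noncomputable def En {α ι : Type*} [Fintype ι] (ch : ι → α → α) (F : α → ℝ) : ℕ → α → ℝ
  | 0, R => F R
  | n + 1, R => (∑ s, En ch F n (ch s R)) / Fintype.card ι

section
variable {α ι : Type*} [Fintype ι] (ch : ι → α → α)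

lemma En_add (F G : α → ℝ) (n : ℕ) (R : α) :
    En ch (fun R => F R + G R) n R = En ch F n R + En ch G n R := by
  induction n generalizing R with
  | zero => rfl
  | succ n ih => simp only [En, ih, Finset.sum_add_distrib, add_div]

lemma En_const_mul (c : ℝ) (F : α → ℝ) (n : ℕ) (R : α) :
    En ch (fun R => c * F R) n R = c * En ch F n R := by
  induction n generalizing R with
  | zero => rfl
  | succ n ih => simp only [En, ih, ← Finset.mul_sum, mul_div_assoc]

lemma En_sum {κ : Type*} (t : Finset κ) (F : κ → α → ℝ) (n : ℕ) (R : α) :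
    En ch (fun R => ∑ k ∈ t, F k R) n R = ∑ k ∈ t, En ch (F k) n R := by
  induction n generalizing R with
  | zero => rfl
  | succ n ih =>
    simp only [En, ih]
    rw [Finset.sum_comm, Finset.sum_div]

lemma En_mono {F G : α → ℝ} (h : ∀ R, F R ≤ G R) (n : ℕ) (R : α) :
    En ch F n R ≤ En ch G n R := by
  induction n generalizing R with
  | zero => exact h R
  | succ n ih =>
    simp only [En]
    gcongr with s _
    exact ih _

lemma En_nonneg {F : α → ℝ} (h : ∀ R, 0 ≤ F R) (n : ℕ) (R : α) : 0 ≤ En ch F n R := by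
  induction n generalizing R with
  | zero => exact h R
  | succ n ih =>
    simp only [En]
    exact div_nonneg (Finset.sum_nonneg fun s _ => ih _) (Nat.cast_nonneg _)

lemma En_martingale {A : α → ℝ} (h : ∀ R, A R = (∑ s, A (ch s R)) / Fintype.card ι)
    (n : ℕ) (R : α) : En ch A n R = A R := by
  induction n generalizing R with
  | zero => rfl
  | succ n ih => simp only [En, ih]; exact (h R).symm

lemma En_const [Nonempty ι] (c : ℝ) (n : ℕ) (R : α) : En ch (fun _ => c) n R = c := by
  refine En_martingale ch (A := fun _ => c) (fun R => ?_) n R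
  have : (Fintype.card ι : ℝ) ≠ 0 := by
    exact_mod_cast Fintype.card_ne_zero
  simp only [Finset.sum_const, Finset.card_univ, nsmul_eq_mul]
  field_simp

/-- Each child of a cube has average at most `N` times that of the cube. -/
lemma child_le [Nonempty ι] {A : α → ℝ} (h0 : ∀ R, 0 < A R)
    (h : ∀ R, A R = (∑ s, A (ch s R)) / Fintype.card ι) (R : α) (s : ι) :
    A (ch s R) ≤ Fintype.card ι * A R := by
  have hN : (0 : ℝ) < Fintype.card ι := by exact_mod_cast Fintype.card_pos
  rw [h R, mul_div_cancel₀ _ hN.ne']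
  exact Finset.single_le_sum (f := fun s => A (ch s R)) (fun s _ => (h0 _).le) (Finset.mem_univ s)

lemma En_mono_of [Nonempty ι] {A : α → ℝ} (h0 : ∀ R, 0 < A R)
    (h : ∀ R, A R = (∑ s, A (ch s R)) / Fintype.card ι) {F G : α → ℝ} {T : ℝ}
    (hFG : ∀ R, A R ≤ T → F R ≤ G R) (n : ℕ) (R : α)
    (hR : A R * (Fintype.card ι : ℝ) ^ n ≤ T) : En ch F n R ≤ En ch G n R := by
  induction n generalizing R with
  | zero => exact hFG R (by simpa using hR)
  | succ n ih =>
    simp only [En]
    have hN : (0 : ℝ) < Fintype.card ι := by exact_mod_cast Fintype.card_pos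
    gcongr with s _
    refine ih _ ?_
    have := child_le ch h0 h R s
    calc A (ch s R) * (Fintype.card ι : ℝ) ^ n
        ≤ (Fintype.card ι * A R) * (Fintype.card ι : ℝ) ^ n := by gcongr
      _ = A R * (Fintype.card ι : ℝ) ^ (n + 1) := by ring
      _ ≤ T := hR

open Classical in
/-- The Calderon-Zygmund step. -/
lemma cz [Nonempty ι] {A B : α → ℝ} {p L : ℝ} (hp : 1 < p) (h0 : ∀ R, 0 < A R)
    (hA : ∀ R, A R = (∑ s, A (ch s R)) / Fintype.card ι)
    (hB : ∀ R, B R = (∑ s, B (ch s R)) / Fintype.card ι)
    (hAB : ∀ R, A R ^ p ≤ B R) (hBA : ∀ R, B R ≤ L * A R ^ p) (hL : 0 ≤ L)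
    {t : ℝ} (ht : 0 < t) (n : ℕ) (R : α) (hR : A R ≤ Fintype.card ι * t) :
    En ch (fun R => if t < A R then A R ^ p else 0) n R ≤
      2 * L * (Fintype.card ι * t) ^ (p - 1) *
        En ch (fun R => if t < 2 * A R then A R else 0) n R := by
  have hN : (0 : ℝ) < Fintype.card ι := by exact_mod_cast Fintype.card_pos
  have hC : 0 ≤ 2 * L * (Fintype.card ι * t) ^ (p - 1) := by positivity
  have hG0 : ∀ R, 0 ≤ (if t < 2 * A R then A R else 0) := by
    intro R; split_ifs; exacts [(h0 R).le, le_rfl]
  by_cases hlt : t < A R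
  · -- large cube
    have h1 : En ch (fun R => if t < A R then A R ^ p else 0) n R ≤ B R := by
      rw [← En_martingale ch hB n R]
      refine En_mono ch (fun R => ?_) n R
      split_ifs
      · exact hAB R
      · exact le_trans (Real.rpow_nonneg (h0 R).le _) (hAB R)
    have h2 : A R ^ p ≤ (Fintype.card ι * t) ^ (p - 1) * A R := by
      have : A R ^ p = A R ^ (p - 1) * A R := by
        rw [← Real.rpow_add_one (h0 R).ne']; ring_nf
      rw [this]
      have := Real.rpow_le_rpow (h0 R).le hR (by linarith : 0 ≤ p - 1)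
      gcongr
      exact (h0 R).le
    have h3 : A R ≤ 2 * En ch (fun R => if t < 2 * A R then A R else 0) n R := by
      have e1 : A R ≤ En ch (fun R => if t < 2 * A R then A R else 0) n R + t / 2 := by
        calc A R = En ch A n R := (En_martingale ch hA n R).symm
          _ ≤ En ch (fun R => (if t < 2 * A R then A R else 0) + t / 2) n R := by
              refine En_mono ch (fun R => ?_) n R
              split_ifs with h
              · linarith
              · linarith [not_lt.mp h]
          _ = _ := by rw [En_add, En_const]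
      linarith
    calc En ch (fun R => if t < A R then A R ^ p else 0) n R ≤ B R := h1
      _ ≤ L * A R ^ p := hBA R
      _ ≤ L * ((Fintype.card ι * t) ^ (p - 1) * A R) := by gcongr
      _ ≤ L * ((Fintype.card ι * t) ^ (p - 1) *
            (2 * En ch (fun R => if t < 2 * A R then A R else 0) n R)) := by
          have : 0 ≤ (Fintype.card ι * t) ^ (p - 1) := by positivity
          gcongr
      _ = _ := by ring
  · induction n generalizing R with
    | zero =>
      simp only [En, if_neg hlt]
      exact mul_nonneg hC (hG0 R)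
    | succ n ih =>
      simp only [En]
      rw [← mul_div_assoc]
      gcongr
      rw [Finset.mul_sum]
      refine Finset.sum_le_sum fun s _ => ?_
      have hs : A (ch s R) ≤ Fintype.card ι * t :=
        (child_le ch h0 hA R s).trans (by gcongr; exact not_lt.mp hlt)
      by_cases hlt' : t < A (ch s R)
      · -- repeat the large-cube argument for the child
        have h1 : En ch (fun R => if t < A R then A R ^ p else 0) n (ch s R) ≤ B (ch s R) := by
          rw [← En_martingale ch hB n (ch s R)]
          refine En_mono ch (fun R => ?_) n _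
          split_ifs
          · exact hAB R
          · exact le_trans (Real.rpow_nonneg (h0 R).le _) (hAB R)
        have h2 : A (ch s R) ^ p ≤ (Fintype.card ι * t) ^ (p - 1) * A (ch s R) := by
          have : A (ch s R) ^ p = A (ch s R) ^ (p - 1) * A (ch s R) := by
            rw [← Real.rpow_add_one (h0 _).ne']; ring_nf
          rw [this]
          have := Real.rpow_le_rpow (h0 _).le hs (by linarith : 0 ≤ p - 1)
          gcongr
          exact (h0 _).le
        have h3 : A (ch s R) ≤ 2 * En ch (fun R => if t < 2 * A R then A R else 0) n (ch s R) := by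
          have e1 : A (ch s R) ≤
              En ch (fun R => if t < 2 * A R then A R else 0) n (ch s R) + t / 2 := by
            calc A (ch s R) = En ch A n (ch s R) := (En_martingale ch hA n _).symm
              _ ≤ En ch (fun R => (if t < 2 * A R then A R else 0) + t / 2) n (ch s R) := by
                  refine En_mono ch (fun R => ?_) n _
                  split_ifs with h
                  · linarith
                  · linarith [not_lt.mp h]
              _ = _ := by rw [En_add, En_const]
          linarith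
        calc En ch (fun R => if t < A R then A R ^ p else 0) n (ch s R) ≤ B (ch s R) := h1
          _ ≤ L * A (ch s R) ^ p := hBA _
          _ ≤ L * ((Fintype.card ι * t) ^ (p - 1) * A (ch s R)) := by gcongr
          _ ≤ L * ((Fintype.card ι * t) ^ (p - 1) *
                (2 * En ch (fun R => if t < 2 * A R then A R else 0) n (ch s R))) := by
              have : 0 ≤ (Fintype.card ι * t) ^ (p - 1) := by positivity
              gcongr
          _ = _ := by ring
      · exact ih (ch s R) hs hlt'

end

/-- Layer-cake inequality, first half. -/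
lemma layer1 {a a0 ε : ℝ} (ha : 0 < a) (ha0 : 0 < a0) (hε : 0 < ε) (hε1 : ε ≤ 1) (M : ℕ)
    (hM : a ≤ 2 ^ M * a0) :
    a ^ ε ≤ a0 ^ ε + ∑ k ∈ range M, ε * (2 ^ k * a0) ^ ε * (if 2 ^ k * a0 < a then 1 else 0) := by
  induction M generalizing a with
  | zero =>
    simp only [range_zero, sum_empty, add_zero]
    exact Real.rpow_le_rpow ha.le (by simpa using hM) hε.le
  | succ M ih =>
    rw [Finset.sum_range_succ]
    by_cases h : a ≤ 2 ^ M * a0
    · have := ih ha h
      have h2 : 0 ≤ ε * (2 ^ M * a0) ^ ε * (if 2 ^ M * a0 < a then (1 : ℝ) else 0) := by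
        split_ifs <;> positivity
      linarith
    · have h' := not_le.mp h
      have hM0 : (0 : ℝ) < 2 ^ M * a0 := by positivity
      have h1 := ih hM0 le_rfl
      have h2 : ∑ k ∈ range M, ε * (2 ^ k * a0) ^ ε *
          (if (2 : ℝ) ^ k * a0 < 2 ^ M * a0 then (1 : ℝ) else 0) ≤
          ∑ k ∈ range M, ε * (2 ^ k * a0) ^ ε * (if 2 ^ k * a0 < a then 1 else 0) := by
        refine Finset.sum_le_sum fun k _ => ?_
        gcongr
        split_ifs with h3 h4 h4
        · exact le_rfl
        · exact absurd (h3.trans h') h4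
        · norm_num
        · exact le_rfl
      have h3 : a ^ ε ≤ (1 + ε) * (2 ^ M * a0) ^ ε := by
        calc a ^ ε ≤ (2 ^ (M + 1) * a0) ^ ε := Real.rpow_le_rpow ha.le hM hε.le
          _ = (2 : ℝ) ^ ε * (2 ^ M * a0) ^ ε := by
              rw [← Real.mul_rpow (by norm_num) hM0.le]; ring_nf
          _ ≤ (1 + ε) * (2 ^ M * a0) ^ ε := by
              gcongr
              have := rpow_one_add_le_one_add_mul_self (s := 1) (by norm_num) hε.le hε1
              simpa [one_add_one_eq_two] using this
      rw [if_pos h']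
      linarith

/-- Geometric sum. -/
lemma geo {a0 s : ℝ} (ha0 : 0 < a0) (hs : 0 < s) (M : ℕ) :
    ∑ k ∈ range M, (2 ^ k * a0) ^ s ≤
      (2 ^ M * a0) ^ s * ((2 : ℝ) ^ (-s) / (1 - (2 : ℝ) ^ (-s))) := by
  have hq : (2 : ℝ) ^ (-s) < 1 := Real.rpow_lt_one_of_one_lt_of_neg (by norm_num) (by linarith)
  have hq0 : 0 < (2 : ℝ) ^ (-s) := by positivity
  have h1q : 0 < 1 - (2 : ℝ) ^ (-s) := by linarith
  induction M with
  | zero =>
    simp only [range_zero, sum_empty]
    positivity
  | succ M ih =>
    rw [Finset.sum_range_succ]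
    have e : ((2 : ℝ) ^ (M + 1) * a0) ^ s = (2 : ℝ) ^ s * (2 ^ M * a0) ^ s := by
      rw [← Real.mul_rpow (by norm_num) (by positivity)]; ring_nf
    have e2 : (2 : ℝ) ^ s * (2 : ℝ) ^ (-s) = 1 := by
      rw [← Real.rpow_add (by norm_num)]; simp
    calc ∑ k ∈ range M, ((2 : ℝ) ^ k * a0) ^ s + (2 ^ M * a0) ^ s
        ≤ (2 ^ M * a0) ^ s * ((2 : ℝ) ^ (-s) / (1 - (2 : ℝ) ^ (-s))) + (2 ^ M * a0) ^ s := by
          linarith
      _ = (2 ^ M * a0) ^ s * (1 / (1 - (2 : ℝ) ^ (-s))) := by
          field_simp; ring
      _ = _ := by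
          rw [e]
          have : (2 : ℝ) ^ s * (2 ^ M * a0) ^ s * ((2 : ℝ) ^ (-s) / (1 - (2 : ℝ) ^ (-s))) =
            ((2 : ℝ) ^ s * (2 : ℝ) ^ (-s)) * ((2 ^ M * a0) ^ s * (1 / (1 - (2 : ℝ) ^ (-s)))) := by
            ring
          rw [this, e2, one_mul]

/-- Layer-cake inequality, second half. -/
lemma layer2 {b a0 s : ℝ} (hb : 0 < b) (ha0 : 0 < a0) (hs : 0 < s) (M : ℕ) :
    ∑ k ∈ range M, (2 ^ k * a0) ^ s * (if 2 ^ k * a0 < b then 1 else 0) ≤
      b ^ s / (1 - (2 : ℝ) ^ (-s)) := by
  have hq : (2 : ℝ) ^ (-s) < 1 := Real.rpow_lt_one_of_one_lt_of_neg (by norm_num) (by linarith)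
  have hq0 : 0 < (2 : ℝ) ^ (-s) := by positivity
  have h1q : 0 < 1 - (2 : ℝ) ^ (-s) := by linarith
  induction M with
  | zero =>
    simp only [range_zero, sum_empty]
    positivity
  | succ M ih =>
    rw [Finset.sum_range_succ]
    by_cases h : 2 ^ M * a0 < b
    · rw [if_pos h, mul_one]
      have h1 : ∑ k ∈ range M, (2 ^ k * a0) ^ s * (if 2 ^ k * a0 < b then (1 : ℝ) else 0) ≤
          ∑ k ∈ range M, (2 ^ k * a0) ^ s := by
        refine Finset.sum_le_sum fun k _ => ?_
        have : 0 ≤ ((2 : ℝ) ^ k * a0) ^ s := by positivity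
        split_ifs <;> simp [this]
      have h2 := geo ha0 hs M
      have h3 : (2 ^ M * a0) ^ s ≤ b ^ s := Real.rpow_le_rpow (by positivity) h.le hs.le
      calc _ ≤ (2 ^ M * a0) ^ s * ((2 : ℝ) ^ (-s) / (1 - (2 : ℝ) ^ (-s))) + (2 ^ M * a0) ^ s := by
            linarith
        _ = (2 ^ M * a0) ^ s / (1 - (2 : ℝ) ^ (-s)) := by
            field_simp; ring
        _ ≤ _ := by gcongr
    · rw [if_neg h, mul_zero, add_zero]
      exact ih

end helper358_gh
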