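import Pool.Agent.helper358_gh.Cube

open MeasureTheory Set Filter Topology
open scoped ENNReal

namespace helper358_gh

variable {d : ℕ}

/-- The weight as a `[0,∞]`-valued function. -/
noncomputable abbrev uu (w : (Fin d → ℝ) → ℝ) : (Fin d → ℝ) → ℝ≥0∞ := fun x => ENNReal.ofReal (w x)

/-- The `p`-th power of the weight. -/
noncomputable abbrev vv (p : ℝ) (w : (Fin d → ℝ) → ℝ) : (Fin d → ℝ) → ℝ≥0∞ :=
  fun x => ENNReal.ofReal (w x) ^ p

section
variable {w : (Fin d → ℝ) → ℝ} (hw : IsWeight w)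
include hw

lemma uu_meas : AEMeasurable (uu w) volume :=
  hw.locallyIntegrable.aestronglyMeasurable.aemeasurable.ennreal_ofReal

lemma vv_meas (p : ℝ) : AEMeasurable (vv p w) volume :=
  (uu_meas hw).pow_const p

lemma integrableOn_cube (R : Cub d) : IntegrableOn w (cube R.a R.ℓ) volume := by
  rw [cube_eq_Icc]
  exact hw.locallyIntegrable.integrableOn_isCompact isCompact_Icc

lemma uu_ne_top (R : Cub d) : ∫⁻ x in hc R, uu w x ≠ ∞ := by
  rw [← setLIntegral_cube]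
  have h := (integrableOn_cube hw R).lintegral_lt_top
  exact h.ne

lemma uu_pos (R : Cub d) : 0 < ∫⁻ x in hc R, uu w x := by
  have hp := R.pos
  rw [pos_iff_ne_zero]
  intro h
  rw [lintegral_eq_zero_iff' (uu_meas hw).restrict] at h
  have h2 : ∀ᵐ x ∂(volume.restrict (hc R)), False := by
    filter_upwards [h, ae_restrict_of_ae hw.pos] with x hx hx'
    simp only [Pi.zero_apply, ENNReal.ofReal_eq_zero] at hx
    linarith
  have h3 : volume.restrict (hc R) = 0 := by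
    rw [← ae_eq_bot]
    exact Filter.eventually_false_iff_eq_bot.1 h2
  have h4 : volume (hc R) = 0 := by
    rw [← Measure.restrict_apply_self, h3]; rfl
  rw [volume_hc, ENNReal.ofReal_eq_zero] at h4
  have : 0 < R.ℓ ^ d := by positivity
  linarith

lemma avg_uu_pos (R : Cub d) : 0 < avg (uu w) R.a R.ℓ := by
  rw [avg_eq]
  exact ENNReal.div_pos (uu_pos hw R).ne' ENNReal.ofReal_ne_top

lemma avg_uu_ne_top (R : Cub d) : avg (uu w) R.a R.ℓ ≠ ∞ := by
  have hp := R.pos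
  rw [avg_eq]
  refine ENNReal.div_ne_top (uu_ne_top hw R) ?_
  simp only [ne_eq, ENNReal.ofReal_eq_zero, not_le]
  positivity

lemma ravg_uu_pos (R : Cub d) : 0 < ravg (uu w) R :=
  ENNReal.toReal_pos (avg_uu_pos hw R).ne' (avg_uu_ne_top hw R)

lemma avg_pow_le {p : ℝ} (hp : 1 < p) (R : Cub d) :
    avg (vv p w) R.a R.ℓ ^ (1 / p) ≤ rhConst p w * avg (uu w) R.a R.ℓ := by
  have h : avg (vv p w) R.a R.ℓ ^ (1 / p) / avg (uu w) R.a R.ℓ ≤ rhConst p w := by
    unfold rhConst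
    exact le_iSup_of_le R.a (le_iSup_of_le R.ℓ (le_iSup_of_le R.pos le_rfl))
  rwa [ENNReal.div_le_iff (avg_uu_pos hw R).ne' (avg_uu_ne_top hw R)] at h

lemma avg_le {p : ℝ} (hp : 1 < p) (R : Cub d) :
    avg (vv p w) R.a R.ℓ ≤ rhConst p w ^ p * avg (uu w) R.a R.ℓ ^ p := by
  have hp0 : 0 < p := by linarith
  have h := ENNReal.rpow_le_rpow (avg_pow_le hw hp R) hp0.le
  rwa [← ENNReal.rpow_mul, one_div, inv_mul_cancel₀ hp0.ne', ENNReal.rpow_one,
    ENNReal.mul_rpow_of_nonneg _ _ hp0.le] at h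

lemma avg_vv_ne_top {p : ℝ} (hp : 1 < p) (hK : rhConst p w < ∞) (R : Cub d) :
    avg (vv p w) R.a R.ℓ ≠ ∞ := by
  have hp0 : 0 ≤ p := by linarith
  refine ne_top_of_le_ne_top ?_ (avg_le hw hp R)
  exact ENNReal.mul_ne_top (ENNReal.rpow_ne_top_of_nonneg hp0 hK.ne)
    (ENNReal.rpow_ne_top_of_nonneg hp0 (avg_uu_ne_top hw R))

lemma vv_ne_top {p : ℝ} (hp : 1 < p) (hK : rhConst p w < ∞) (R : Cub d) :
    ∫⁻ x in hc R, vv p w x ≠ ∞ := by
  intro h
  apply avg_vv_ne_top hw hp hK R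
  rw [avg_eq, h]
  exact ENNReal.top_div_of_ne_top ENNReal.ofReal_ne_top

/-- Jensen's inequality. -/
lemma jensen {p : ℝ} (hp : 1 < p) (R : Cub d) :
    avg (uu w) R.a R.ℓ ^ p ≤ avg (vv p w) R.a R.ℓ := by
  have hp0 : 0 < p := by linarith
  have hpos := R.pos
  have hV0 : ENNReal.ofReal (R.ℓ ^ d) ≠ 0 := by
    simp only [ne_eq, ENNReal.ofReal_eq_zero, not_le]; positivity
  have hVt : ENNReal.ofReal (R.ℓ ^ d) ≠ ∞ := ENNReal.ofReal_ne_top
  set V := ENNReal.ofReal (R.ℓ ^ d) with hV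
  have hq := Real.HolderConjugate.conjExponent hp
  have hH := ENNReal.lintegral_mul_le_Lp_mul_Lq (volume.restrict (hc R)) hq
    (f := uu w) (g := fun _ => 1) (uu_meas hw).restrict aemeasurable_const
  simp only [Pi.mul_apply, mul_one, ENNReal.one_rpow, lintegral_const, Measure.restrict_apply_univ,
    one_mul, volume_hc] at hH
  rw [← hV] at hH
  have h2 := ENNReal.rpow_le_rpow hH hp0.le
  rw [ENNReal.mul_rpow_of_nonneg _ _ hp0.le, ← ENNReal.rpow_mul, ← ENNReal.rpow_mul, one_div,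
    inv_mul_cancel₀ hp0.ne', ENNReal.rpow_one] at h2
  have e : 1 / Real.conjExponent p * p = p - 1 := by
    rw [Real.conjExponent]
    have : p - 1 ≠ 0 := by linarith
    field_simp
  rw [e] at h2
  rw [avg_eq, avg_eq, ← hV, ENNReal.div_rpow_of_nonneg _ _ hp0.le]
  rw [ENNReal.div_le_iff (by simp [hV0, hVt, hp0.le]) (ENNReal.rpow_ne_top_of_nonneg hp0.le hVt)]
  refine h2.trans (le_of_eq ?_)
  rw [div_eq_mul_inv, mul_assoc]
  congr 1
  rw [ENNReal.rpow_sub _ _ hV0 hVt, ENNReal.rpow_one, div_eq_mul_inv, mul_comm]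

lemma one_le_rhConst {p : ℝ} (hp : 1 < p) : 1 ≤ rhConst p w := by
  have hp0 : 0 < p := by linarith
  set R : Cub d := ⟨0, 1, one_pos⟩
  have h1 := (jensen hw hp R).trans (avg_le hw hp R)
  by_contra hlt
  push Not at hlt
  have hA0 : avg (uu w) R.a R.ℓ ^ p ≠ 0 := by
    simp [(avg_uu_pos hw R).ne', avg_uu_ne_top hw R, hp0.le]
  have hAt : avg (uu w) R.a R.ℓ ^ p ≠ ∞ := ENNReal.rpow_ne_top_of_nonneg hp0.le (avg_uu_ne_top hw R)
  have h2 : rhConst p w ^ p < 1 := by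
    have := ENNReal.rpow_lt_rpow hlt hp0
    simpa using this
  have h3 : rhConst p w ^ p * avg (uu w) R.a R.ℓ ^ p < 1 * avg (uu w) R.a R.ℓ ^ p :=
    (ENNReal.mul_lt_mul_iff_left hA0 hAt).2 h2
  rw [one_mul] at h3
  exact absurd h1 (not_le.2 h3)

end

end helper358_gh
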